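import Pool.Agent.Helper82.CN.St

/-!
# Project CN, module VAR: the variance of the number of independent `k`-sets
-/

set_option autoImplicit false

namespace Pool.Agent.Helper37.CN

open Finset Pool.Agent.Helper82.CN

private lemma EE_zero_VAR {ι : Type} [Fintype ι] [DecidableEq ι] (p : ℝ) (D : Finset ι) :
    EE p (fun ω : ι → Bool => if ∀ e ∈ D, ω e = false then (1 : ℝ) else 0) =
      (1 - p) ^ D.card := by
  classical
  unfold EE
  have h1 : ∀ ω : ι → Bool,
      (∏ i, bw p (ω i)) * (if ∀ e ∈ D, ω e = false then (1 : ℝ) else 0) =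
      ∏ i, (bw p (ω i) * (if i ∈ D then (if ω i = false then (1 : ℝ) else 0) else 1)) := by
    intro ω
    rw [Finset.prod_mul_distrib]
    congr 1
    split_ifs with h
    · symm
      apply Finset.prod_eq_one
      intro i _
      split_ifs with h1 h2
      · rfl
      · exact absurd (h i h1) h2
      · rfl
    · push Not at h
      obtain ⟨e, he, h2⟩ := h
      symm
      apply Finset.prod_eq_zero (Finset.mem_univ e)
      rw [if_pos he, if_neg h2]
  rw [Finset.sum_congr rfl fun ω _ => h1 ω]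
  have h2 := (Finset.prod_univ_sum (fun _ : ι => (univ : Finset Bool))
    (fun i b => bw p b * (if i ∈ D then (if b = false then (1 : ℝ) else 0) else 1))).symm
  simp only [Fintype.piFinset_univ] at h2
  rw [h2]
  have h3 : ∀ i : ι,
      ∑ b : Bool, bw p b * (if i ∈ D then (if b = false then (1 : ℝ) else 0) else 1) =
      if i ∈ D then (1 - p) else 1 := by
    intro i
    split_ifs with h <;> simp [bw]
  rw [Finset.prod_congr rfl fun i _ => h3 i, Finset.prod_ite_mem]
  simp

/-- the pairs in `S` -/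
private def pr_VAR {n : ℕ} (S : Finset (Fin n)) : Finset (Sym2 (Fin n)) :=
  S.offDiag.image (fun x => s(x.1, x.2))

private lemma card_pr_VAR {n : ℕ} (S : Finset (Fin n)) : (pr_VAR S).card = S.card.choose 2 :=
  Sym2.card_image_offDiag S

private lemma mem_pr_VAR {n : ℕ} (S : Finset (Fin n)) (u v : Fin n) :
    s(u, v) ∈ pr_VAR S ↔ u ≠ v ∧ u ∈ S ∧ v ∈ S := by
  unfold pr_VAR
  rw [Finset.mem_image]
  constructor
  · rintro ⟨⟨a, b⟩, hab, h⟩
    rw [Finset.mem_offDiag] at hab
    simp only [Sym2.eq_iff] at h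
    rcases h with ⟨rfl, rfl⟩ | ⟨rfl, rfl⟩
    · exact ⟨hab.2.2, hab.1, hab.2.1⟩
    · exact ⟨hab.2.2.symm, hab.2.1, hab.1⟩
  · rintro ⟨h1, h2, h3⟩
    exact ⟨(u, v), Finset.mem_offDiag.2 ⟨h2, h3, h1⟩, rfl⟩

private lemma ind_iff_VAR {n : ℕ} (S : Finset (Fin n)) (ω : Sym2 (Fin n) → Bool) :
    (∀ u ∈ S, ∀ v ∈ S, u ≠ v → ω s(u, v) = false) ↔ ∀ e ∈ pr_VAR S, ω e = false := by
  constructor
  · intro h e
    induction e using Sym2.ind with
    | _ u v =>
      intro he
      rw [mem_pr_VAR] at he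
      exact h u he.2.1 v he.2.2 he.1
  · intro h u hu v hv huv
    exact h _ ((mem_pr_VAR S u v).2 ⟨huv, hu, hv⟩)

private lemma inter_pr_VAR {n : ℕ} (S T : Finset (Fin n)) :
    pr_VAR S ∩ pr_VAR T = pr_VAR (S ∩ T) := by
  ext e
  induction e using Sym2.ind with
  | _ u v =>
    rw [Finset.mem_inter, mem_pr_VAR, mem_pr_VAR, mem_pr_VAR, Finset.mem_inter, Finset.mem_inter]
    tauto

/-- the indicator of independence -/
private noncomputable def I_VAR {n : ℕ} (S : Finset (Fin n)) (ω : Sym2 (Fin n) → Bool) : ℝ :=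
  if ∀ e ∈ pr_VAR S, ω e = false then 1 else 0

private lemma Xk_eq_VAR (n k : ℕ) (ω : Sym2 (Fin n) → Bool) :
    Xk n k ω = ∑ S ∈ (univ : Finset (Fin n)).powersetCard k, I_VAR S ω := by
  classical
  unfold Xk I_VAR
  rw [Finset.card_filter, Nat.cast_sum]
  refine Finset.sum_congr rfl fun S _ => ?_
  by_cases h : ∀ u ∈ S, ∀ v ∈ S, u ≠ v → ω s(u, v) = false
  · rw [if_pos h, if_pos ((ind_iff_VAR S ω).1 h)]; norm_num
  · rw [if_neg h, if_neg (fun h' => h ((ind_iff_VAR S ω).2 h'))]; norm_num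

private lemma EI_VAR {n : ℕ} (p : ℝ) (S : Finset (Fin n)) :
    EE p (I_VAR S) = (1 - p) ^ (S.card.choose 2) := by
  rw [← card_pr_VAR]
  exact EE_zero_VAR p (pr_VAR S)

private lemma EII_VAR {n : ℕ} (p : ℝ) (S T : Finset (Fin n)) :
    EE p (fun ω => I_VAR S ω * I_VAR T ω) = (1 - p) ^ ((pr_VAR S ∪ pr_VAR T).card) := by
  rw [← EE_zero_VAR p (pr_VAR S ∪ pr_VAR T)]
  congr 1
  funext ω
  unfold I_VAR
  by_cases h1 : ∀ e ∈ pr_VAR S, ω e = false
  · by_cases h2 : ∀ e ∈ pr_VAR T, ω e = false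
    · rw [if_pos h1, if_pos h2, if_pos, one_mul]
      intro e he
      rcases Finset.mem_union.1 he with h | h
      · exact h1 e h
      · exact h2 e h
    · rw [if_neg h2, mul_zero, if_neg]
      exact fun h => h2 fun e he => h e (Finset.mem_union_right _ he)
  · rw [if_neg h1, zero_mul, if_neg]
    exact fun h => h1 fun e he => h e (Finset.mem_union_left _ he)

private lemma card_union_VAR {n k : ℕ} (S T : Finset (Fin n)) (hS : S.card = k)
    (hT : T.card = k) :
    (pr_VAR S ∪ pr_VAR T).card + (S ∩ T).card.choose 2 = 2 * k.choose 2 := by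
  have h := Finset.card_union_add_card_inter (pr_VAR S) (pr_VAR T)
  rw [inter_pr_VAR, card_pr_VAR, card_pr_VAR, card_pr_VAR, hS, hT] at h
  omega

private lemma EXk_VAR (p : ℝ) (n k : ℕ) : EE p (Xk n k) = Mk p n k := by
  have h : Xk n k = fun ω => ∑ S ∈ (univ : Finset (Fin n)).powersetCard k, I_VAR S ω :=
    funext (Xk_eq_VAR n k)
  rw [h, EE_sum]
  unfold Mk
  rw [Finset.sum_congr rfl (g := fun _ => (1 - p) ^ (k.choose 2))]
  · rw [Finset.sum_const, Finset.card_powersetCard, Finset.card_univ, Fintype.card_fin,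
      nsmul_eq_mul]
  · intro S hS
    rw [EI_VAR, (Finset.mem_powersetCard.1 hS).2]

private lemma EXk2_VAR (p : ℝ) (n k : ℕ) :
    EE p (fun ω => Xk n k ω ^ 2) =
      ∑ S ∈ (univ : Finset (Fin n)).powersetCard k,
        ∑ T ∈ (univ : Finset (Fin n)).powersetCard k,
          (1 - p) ^ ((pr_VAR S ∪ pr_VAR T).card) := by
  have h : (fun ω => Xk n k ω ^ 2) = fun ω =>
      ∑ S ∈ (univ : Finset (Fin n)).powersetCard k,
        ∑ T ∈ (univ : Finset (Fin n)).powersetCard k, I_VAR S ω * I_VAR T ω := by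
    funext ω
    rw [Xk_eq_VAR, sq, Finset.sum_mul_sum]
  rw [h, EE_sum]
  refine Finset.sum_congr rfl fun S _ => ?_
  rw [EE_sum]
  exact Finset.sum_congr rfl fun T _ => EII_VAR p S T

private lemma var_VAR (p : ℝ) (n k : ℕ) :
    EE p (fun ω : Sym2 (Fin n) → Bool => (Xk n k ω - Mk p n k) ^ 2) =
      EE p (fun ω => Xk n k ω ^ 2) - Mk p n k ^ 2 := by
  have h : (fun ω : Sym2 (Fin n) → Bool => (Xk n k ω - Mk p n k) ^ 2) = fun ω =>
      (Xk n k ω ^ 2 - 2 * Mk p n k * Xk n k ω) + Mk p n k ^ 2 := by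
    funext ω; ring
  rw [h, EE_add, EE_sub, EE_mul_left, EE_const, EXk_VAR]
  ring

private lemma sup_VAR {n k l : ℕ} (A : Finset (Fin n)) (hA : A.card = l) :
    (((univ : Finset (Fin n)).powersetCard k).filter (fun S => A ⊆ S)).card ≤
      (n - l).choose (k - l) := by
  have h : (n - l).choose (k - l) = ((univ \ A).powersetCard (k - l)).card := by
    rw [Finset.card_powersetCard, Finset.card_sdiff_of_subset (Finset.subset_univ _), Finset.card_univ,
      Fintype.card_fin, hA]
  rw [h]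
  apply Finset.card_le_card_of_injOn (fun S => S \ A)
  · intro S hS
    rw [Finset.mem_coe, Finset.mem_filter, Finset.mem_powersetCard] at hS
    rw [Finset.mem_coe, Finset.mem_powersetCard]
    refine ⟨Finset.sdiff_subset_sdiff (Finset.subset_univ _) (Finset.Subset.refl _), ?_⟩
    show (S \ A).card = k - l
    rw [Finset.card_sdiff_of_subset hS.2, hS.1.2, hA]
  · intro S hS T hT hST
    rw [Finset.mem_coe, Finset.mem_filter] at hS hT
    have h1 : S \ A = T \ A := hST
    rw [← Finset.sdiff_union_of_subset hS.2, ← Finset.sdiff_union_of_subset hT.2, h1]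

/-- the pairs of `k`-sets -/
private def PP_VAR (n k : ℕ) : Finset (Finset (Fin n) × Finset (Fin n)) :=
  (univ : Finset (Fin n)).powersetCard k ×ˢ (univ : Finset (Fin n)).powersetCard k

private lemma count_VAR (n k l : ℕ) :
    ((PP_VAR n k).filter (fun x => (x.1 ∩ x.2).card = l)).card ≤
      n.choose l * ((n - l).choose (k - l) * (n - l).choose (k - l)) := by
  classical
  have h1 : (PP_VAR n k).filter (fun x => (x.1 ∩ x.2).card = l) ⊆
      ((univ : Finset (Fin n)).powersetCard l).biUnion (fun A =>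
        (((univ : Finset (Fin n)).powersetCard k).filter (fun S => A ⊆ S)) ×ˢ
          (((univ : Finset (Fin n)).powersetCard k).filter (fun S => A ⊆ S))) := by
    rintro ⟨S, T⟩ hx
    rw [Finset.mem_filter, PP_VAR, Finset.mem_product] at hx
    rw [Finset.mem_biUnion]
    refine ⟨S ∩ T, Finset.mem_powersetCard.2 ⟨Finset.subset_univ _, hx.2⟩, ?_⟩
    rw [Finset.mem_product, Finset.mem_filter, Finset.mem_filter]
    exact ⟨⟨hx.1.1, Finset.inter_subset_left⟩, ⟨hx.1.2, Finset.inter_subset_right⟩⟩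
  refine (Finset.card_le_card h1).trans (Finset.card_biUnion_le.trans ?_)
  have h2 : n.choose l * ((n - l).choose (k - l) * (n - l).choose (k - l)) =
      ∑ _A ∈ (univ : Finset (Fin n)).powersetCard l,
        (n - l).choose (k - l) * (n - l).choose (k - l) := by
    rw [Finset.sum_const, Finset.card_powersetCard, Finset.card_univ, Fintype.card_fin,
      smul_eq_mul]
  rw [h2]
  refine Finset.sum_le_sum fun A hA => ?_
  rw [Finset.card_product]
  exact Nat.mul_le_mul (sup_VAR A (Finset.mem_powersetCard.1 hA).2)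
    (sup_VAR A (Finset.mem_powersetCard.1 hA).2)

theorem tVAR : StVar := by
  intro p n k hp0 hp1 hk1 hkn
  set q : ℝ := 1 - p with hq
  have hq0 : 0 < q := by rw [hq]; linarith
  have hqne : q ≠ 0 := hq0.ne'
  rw [var_VAR, EXk2_VAR, ← Finset.sum_product']
  have hM2 : Mk p n k ^ 2 = ∑ _x ∈ PP_VAR n k, q ^ (2 * k.choose 2) := by
    rw [Finset.sum_const, PP_VAR, Finset.card_product, Finset.card_powersetCard, Finset.card_univ,
      Fintype.card_fin, nsmul_eq_mul, Mk, ← hq]
    push_cast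
    ring
  have hstep : ∀ x ∈ PP_VAR n k, q ^ ((pr_VAR x.1 ∪ pr_VAR x.2).card) - q ^ (2 * k.choose 2) ≤
      ∑ l ∈ Icc 2 k, if (x.1 ∩ x.2).card = l then q ^ (2 * k.choose 2) / q ^ (l.choose 2)
        else 0 := by
    rintro ⟨S, T⟩ hx
    rw [PP_VAR, Finset.mem_product, Finset.mem_powersetCard, Finset.mem_powersetCard] at hx
    have hc := card_union_VAR S T hx.1.2 hx.2.2
    have hle : (S ∩ T).card ≤ k := by
      rw [← hx.1.2]
      exact Finset.card_le_card Finset.inter_subset_left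
    show q ^ ((pr_VAR S ∪ pr_VAR T).card) - q ^ (2 * k.choose 2) ≤ _
    by_cases h2 : 2 ≤ (S ∩ T).card
    · rw [Finset.sum_ite_eq, if_pos (Finset.mem_Icc.2 ⟨h2, hle⟩)]
      rw [← hc, pow_add, mul_div_assoc, div_self (pow_ne_zero _ hqne), mul_one]
      have : 0 ≤ q ^ ((pr_VAR S ∪ pr_VAR T).card) * q ^ ((S ∩ T).card.choose 2) := by positivity
      linarith
    · rw [Finset.sum_ite_eq, if_neg (fun h => h2 (Finset.mem_Icc.1 h).1)]
      have h3 : (S ∩ T).card.choose 2 = 0 := Nat.choose_eq_zero_of_lt (by omega)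
      rw [h3, add_zero] at hc
      rw [hc, sub_self]
  rw [hM2, PP_VAR, ← Finset.sum_sub_distrib]
  rw [← PP_VAR]
  refine (Finset.sum_le_sum hstep).trans ?_
  rw [Finset.sum_comm, ← hM2, Finset.mul_sum]
  refine Finset.sum_le_sum fun l hl => ?_
  rw [Finset.mem_Icc] at hl
  rw [← Finset.sum_filter, Finset.sum_const, nsmul_eq_mul]
  have hln : l ≤ n := hl.2.trans hkn
  have hcn : (0 : ℝ) < n.choose l := by exact_mod_cast Nat.choose_pos hln
  have hcm : (n.choose k : ℝ) * (k.choose l : ℝ) =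
      (n.choose l : ℝ) * ((n - l).choose (k - l) : ℝ) := by
    exact_mod_cast Nat.choose_mul (n := n) hl.2
  have hcount : (((PP_VAR n k).filter (fun x => (x.1 ∩ x.2).card = l)).card : ℝ) ≤
      (n.choose l : ℝ) * (((n - l).choose (k - l) : ℝ) * ((n - l).choose (k - l) : ℝ)) := by
    exact_mod_cast count_VAR n k l
  calc (((PP_VAR n k).filter (fun x => (x.1 ∩ x.2).card = l)).card : ℝ) *
        (q ^ (2 * k.choose 2) / q ^ (l.choose 2))
      ≤ (n.choose l : ℝ) * (((n - l).choose (k - l) : ℝ) * ((n - l).choose (k - l) : ℝ)) *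
        (q ^ (2 * k.choose 2) / q ^ (l.choose 2)) :=
        mul_le_mul_of_nonneg_right hcount (by positivity)
    _ = Mk p n k ^ 2 * ((k.choose l : ℝ) ^ 2 / Mk p n l) := by
        unfold Mk
        rw [← hq]
        have e1 : ((n.choose k : ℝ) * q ^ k.choose 2) ^ 2 *
            ((k.choose l : ℝ) ^ 2 / ((n.choose l : ℝ) * q ^ l.choose 2)) =
            ((n.choose k : ℝ) * (k.choose l : ℝ)) ^ 2 * q ^ (2 * k.choose 2) /
              ((n.choose l : ℝ) * q ^ l.choose 2) := by
          rw [mul_comm 2 (k.choose 2), pow_mul]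
          ring
        rw [e1, hcm]
        field_simp

end Pool.Agent.Helper37.CN
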